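import Pool.Agent.R573.CM.Defs

/-!
# The objective `W_n`: changes of letters, recognition by a parity automaton
-/

set_option autoImplicit false

namespace Pool.Agent.R573.CM

open Filter

/-- Two different letters occur infinitely often if and only if the letter changes infinitely
often. -/
theorem mem_twoLetters_iff {n : ℕ} (w : ℕ → Fin n) :
    w ∈ twoLetters n ↔ ∀ N, ∃ t, N ≤ t ∧ w (t + 1) ≠ w t := by
  constructor
  · rintro ⟨i, j, hij, hi, hj⟩ N
    by_contra hcon
    push Not at hcon
    have hconst : ∀ t, N ≤ t → w t = w N := by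
      intro t ht
      induction t, ht using Nat.le_induction with
      | base => rfl
      | succ t ht ih => rw [hcon t ht, ih]
    obtain ⟨a, haN, ha⟩ := (frequently_atTop.1 hi) N
    obtain ⟨b, hbN, hb⟩ := (frequently_atTop.1 hj) N
    exact hij (by rw [← ha, ← hb, hconst a haN, hconst b hbN])
  · intro h
    have h1 : ∃ᶠ t in atTop, ∃ q : Fin n × Fin n, q.1 ≠ q.2 ∧ w t = q.1 ∧ w (t + 1) = q.2 := by
      rw [frequently_atTop]
      intro N
      obtain ⟨t, ht, hne⟩ := h N
      exact ⟨t, ht, (w t, w (t + 1)), fun h => hne h.symm, rfl, rfl⟩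
    rw [frequently_exists] at h1
    obtain ⟨q, hq⟩ := h1
    refine ⟨q.1, q.2, ?_, hq.mono fun t ht => ht.2.1, ?_⟩
    · obtain ⟨t, ht⟩ := hq.exists
      exact ht.1
    · rw [frequently_atTop]
      intro N
      obtain ⟨t, ht, h2⟩ := (frequently_atTop.1 hq) N
      exact ⟨t + 1, by omega, h2.2.2⟩

/-- The parity automaton for `W_n`: it stores the last letter. -/
def lastLetter (n : ℕ) : Parity (Fin n) where
  Q := Option (Fin n)
  start := none
  step := fun _ c => some c
  prio := fun q c => if q = some c then 1 else 2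

theorem omegaRegular_twoLetters (n : ℕ) : OmegaRegular (twoLetters n) := by
  refine ⟨lastLetter n, inferInstanceAs (Finite (Option (Fin n))), fun w => ?_⟩
  have hrun : ∀ t, (lastLetter n).run w (t + 1) = some (w t) := fun t => rfl
  have hp : ∀ t, (lastLetter n).prio ((lastLetter n).run w (t + 1)) (w (t + 1)) =
      if w (t + 1) = w t then 1 else 2 := by
    intro t
    rw [hrun]
    show (if (some (w t) : Option (Fin n)) = some (w (t + 1)) then 1 else 2) = _
    by_cases h : w (t + 1) = w t
    · rw [if_pos h, if_pos (by rw [h])]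
    · rw [if_neg h, if_neg]
      intro h2
      exact h (Option.some.inj h2).symm
  have hle : ∀ t, (lastLetter n).prio ((lastLetter n).run w t) (w t) ≤ 2 := by
    intro t
    rcases t with - | t
    · show (if (none : Option (Fin n)) = some (w 0) then 1 else 2) ≤ 2
      rw [if_neg (by simp)]
    · rw [hp]
      split_ifs <;> omega
  rw [mem_twoLetters_iff]
  constructor
  · intro h
    refine ⟨2, ⟨1, rfl⟩, ?_, Eventually.of_forall hle⟩
    rw [frequently_atTop]
    intro N
    obtain ⟨t, ht, hne⟩ := h N
    exact ⟨t + 1, by omega, by rw [hp, if_neg hne]⟩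
  · rintro ⟨d, hd, hfreq, -⟩ N
    obtain ⟨t, ht, htd⟩ := (frequently_atTop.1 hfreq) (N + 1)
    obtain ⟨s, rfl⟩ : ∃ s, t = s + 1 := ⟨t - 1, by omega⟩
    refine ⟨s, by omega, fun heq => ?_⟩
    rw [hp, if_pos heq] at htd
    rw [← htd] at hd
    exact absurd hd (by decide)

end Pool.Agent.R573.CM
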