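import Mathlib

/-!
# Games on graphs and chromatic memory: definitions
-/

set_option autoImplicit false

namespace Pool.Agent.R573.CM

open Filter

/-- A game over the alphabet `S`: a possibly infinite directed graph with edges coloured by `S` in
which every vertex has an outgoing edge, the set of the vertices owned by Eve (the others are owned
by Adam), and an initial vertex. -/
structure Game (S : Type) where
  /-- the vertices -/
  V : Type
  /-- `edge v c w`: there is an edge from `v` to `w` with the colour `c` -/
  edge : V → S → V → Prop
  total : ∀ v, ∃ c w, edge v c w
  /-- the vertices owned by Eve -/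
  eve : V → Prop
  /-- the initial vertex -/
  init : V

/-- An infinite play from the initial vertex, given by its vertices and its colours. -/
structure Play {S : Type} (G : Game S) where
  /-- the vertices -/
  v : ℕ → G.V
  /-- the colours of the edges -/
  c : ℕ → S
  start : v 0 = G.init
  step : ∀ n, G.edge (v n) (c n) (v (n + 1))

/-- A strategy for Eve, without any restriction: it chooses an outgoing edge (given by its colour
and its target) for each vertex of Eve, depending on the moves made so far (the list of the pairs
of a vertex and of the colour of the edge which was taken there). -/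
structure Strategy {S : Type} (G : Game S) where
  /-- the chosen edge -/
  move : List (G.V × S) → G.V → S × G.V
  legal : ∀ h v, G.eve v → G.edge v (move h v).1 (move h v).2

/-- The play follows the strategy. -/
def Strategy.Follows {S : Type} {G : Game S} (σ : Strategy G) (p : Play G) : Prop :=
  ∀ n, G.eve (p.v n) →
    (p.c n, p.v (n + 1)) = σ.move ((List.range n).map fun i => (p.v i, p.c i)) (p.v n)

/-- Eve has a winning strategy in the game `G` with the objective `W`. -/
def EveWins {S : Type} (G : Game S) (W : Set (ℕ → S)) : Prop :=
  ∃ σ : Strategy G, ∀ p : Play G, σ.Follows p → p.c ∈ W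

/-- A chromatic strategy for Eve with `k` memory states: the initial state, the update function,
which depends only on the colour just seen, and a choice of an outgoing edge for each vertex of Eve
and each memory state. -/
structure Chromatic {S : Type} (G : Game S) (k : ℕ) where
  /-- the initial memory state -/
  start : Fin k
  /-- the update function -/
  upd : Fin k → S → Fin k
  /-- the chosen edge -/
  choice : G.V → Fin k → S × G.V
  legal : ∀ v m, G.eve v → G.edge v (choice v m).1 (choice v m).2

/-- The memory states during a play with the colours `c`. -/
def Chromatic.mem {S : Type} {G : Game S} {k : ℕ} (s : Chromatic G k) (c : ℕ → S) : ℕ → Fin k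
  | 0 => s.start
  | n + 1 => s.upd (s.mem c n) (c n)

/-- The play follows the chromatic strategy. -/
def Chromatic.Follows {S : Type} {G : Game S} {k : ℕ} (s : Chromatic G k) (p : Play G) : Prop :=
  ∀ n, G.eve (p.v n) → (p.c n, p.v (n + 1)) = s.choice (p.v n) (s.mem p.c n)

/-- In every game of the class `C` with the objective `W` in which Eve has a winning strategy, she
has a winning chromatic strategy with `k` memory states. -/
def Suffices {S : Type} (C : Game S → Prop) (W : Set (ℕ → S)) (k : ℕ) : Prop :=
  ∀ G : Game S, C G → EveWins G W → ∃ s : Chromatic G k, ∀ p : Play G, s.Follows p → p.c ∈ W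

/-- The chromatic memory of `W` over the class `C` of games is `k`. -/
def IsChromaticMemory {S : Type} (C : Game S → Prop) (W : Set (ℕ → S)) (k : ℕ) : Prop :=
  IsLeast {k | Suffices C W k} k

/-- One-player games: Eve owns every vertex. -/
def OnePlayer {S : Type} (G : Game S) : Prop := ∀ v, G.eve v

/-- A deterministic parity automaton, with priorities on the transitions. -/
structure Parity (S : Type) where
  /-- the states -/
  Q : Type
  /-- the initial state -/
  start : Q
  /-- the transition function -/
  step : Q → S → Q
  /-- the priorities -/
  prio : Q → S → ℕ

/-- The run of the automaton on an infinite word. -/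
def Parity.run {S : Type} (A : Parity S) (w : ℕ → S) : ℕ → A.Q
  | 0 => A.start
  | n + 1 => A.step (A.run w n) (w n)

/-- The automaton accepts if the largest priority that occurs infinitely often is even. -/
def Parity.Accepts {S : Type} (A : Parity S) (w : ℕ → S) : Prop :=
  ∃ d, Even d ∧ (∃ᶠ n in atTop, A.prio (A.run w n) (w n) = d) ∧
    ∀ᶠ n in atTop, A.prio (A.run w n) (w n) ≤ d

/-- The objective is recognised by a deterministic parity automaton with finitely many states. -/
def OmegaRegular {S : Type} (W : Set (ℕ → S)) : Prop :=
  ∃ A : Parity S, Finite A.Q ∧ ∀ w, w ∈ W ↔ A.Accepts w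

/-- The objective `W_n`: two different letters occur infinitely often. -/
def twoLetters (n : ℕ) : Set (ℕ → Fin n) :=
  {w | ∃ i j, i ≠ j ∧ (∃ᶠ t in atTop, w t = i) ∧ ∃ᶠ t in atTop, w t = j}

end Pool.Agent.R573.CM
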