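import Pool.Agent.R573.CM.Basic

/-!
# Arbitrary games with the objective `W_n`: `n` memory states are needed
-/

set_option autoImplicit false

namespace Pool.Agent.R573.CM

open Filter

/-- The game in which Adam offers two different letters, playing one of them, and Eve answers with
one of the two letters. -/
def offer (n : ℕ) (hn : 2 ≤ n) : Game (Fin n) where
  V := Option (Fin n × Fin n)
  edge := fun v c w =>
    match v, w with
    | none, some (x, y) => x ≠ y ∧ (c = x ∨ c = y)
    | some (x, y), none => c = x ∨ c = y
    | _, _ => False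
  total := by
    rintro (- | ⟨x, y⟩)
    · exact ⟨⟨0, by omega⟩, some (⟨0, by omega⟩, ⟨1, by omega⟩), by simp, Or.inl rfl⟩
    · exact ⟨x, none, Or.inl rfl⟩
  eve := fun v => v ≠ none
  init := none

theorem offer_none {n : ℕ} {hn : 2 ≤ n} {c : Fin n} {w : Option (Fin n × Fin n)}
    (h : (offer n hn).edge (none : Option (Fin n × Fin n)) c w) :
    ∃ x y, w = some (x, y) ∧ x ≠ y ∧ (c = x ∨ c = y) := by
  rcases w with - | ⟨x, y⟩
  · exact h.elim
  · exact ⟨x, y, rfl, h⟩

theorem offer_some {n : ℕ} {hn : 2 ≤ n} {c : Fin n} {x y : Fin n} {w : Option (Fin n × Fin n)}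
    (h : (offer n hn).edge (some (x, y) : Option (Fin n × Fin n)) c w) :
    w = none ∧ (c = x ∨ c = y) := by
  rcases w with - | ⟨x', y'⟩
  · exact ⟨rfl, h⟩
  · exact h.elim

theorem eveWins_offer (n : ℕ) (hn : 2 ≤ n) : EveWins (offer n hn) (twoLetters n) := by
  classical
  -- answer with the other letter
  let ans : Option (Option (Fin n × Fin n) × Fin n) → Option (Fin n × Fin n) → Fin n := fun l v =>
    match v with
    | none => ⟨0, by omega⟩
    | some (x, y) => if l.map Prod.snd = some x then y else x
  refine ⟨⟨fun h v => (ans h.getLast? v, none), ?_⟩, ?_⟩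
  · rintro h (- | ⟨x, y⟩) hv
    · exact absurd rfl hv
    · show ans h.getLast? (some (x, y)) = x ∨ ans h.getLast? (some (x, y)) = y
      show (if _ then y else x) = x ∨ (if _ then y else x) = y
      split_ifs
      · exact Or.inr rfl
      · exact Or.inl rfl
  · intro p hp
    have hpar : ∀ t, p.v (2 * t) = none := by
      intro t
      induction t with
      | zero => exact p.start
      | succ t ih =>
        have h1 := p.step (2 * t)
        rw [ih] at h1
        obtain ⟨x, y, hw, -⟩ := offer_none h1
        have h2 := p.step (2 * t + 1)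
        rw [hw] at h2
        exact (offer_some h2).1
    rw [mem_twoLetters_iff]
    intro N
    refine ⟨2 * N, by omega, ?_⟩
    have h1 := p.step (2 * N)
    rw [hpar] at h1
    obtain ⟨x, y, hw, hxy, hc⟩ := offer_none h1
    have h2 := hp (2 * N + 1) (by rw [hw]; exact Option.some_ne_none _)
    have h3 := congrArg Prod.fst h2
    have h4 : (((List.range (2 * N + 1)).map fun i => (p.v i, p.c i))).getLast? =
        some (p.v (2 * N), p.c (2 * N)) := by
      rw [List.range_succ, List.map_append, List.map_singleton, List.getLast?_concat]
    rw [hw] at h3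
    have h5 : p.c (2 * N + 1) = if some (p.c (2 * N)) = some x then y else x := by
      refine h3.trans ?_
      show ans (((List.range (2 * N + 1)).map fun i => (p.v i, p.c i)).getLast?)
        (some (x, y)) = _
      rw [h4]
      rfl
    rw [h5]
    rcases hc with hc | hc
    · rw [if_pos (by rw [hc]), hc]
      exact fun h => hxy h.symm
    · rw [if_neg (by rw [hc]; intro h; exact hxy (Option.some.inj h).symm), hc]
      exact hxy

theorem all_lower (n : ℕ) (hn : 2 ≤ n) (k : ℕ) (h : Suffices (fun _ => True) (twoLetters n) k) :
    n ≤ k := by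
  classical
  obtain ⟨s, hs⟩ := h (offer n hn) trivial (eveWins_offer n hn)
  have key : ∀ i : Fin n, ∃ m : Fin k, ∀ x y, x ≠ y → (i = x ∨ i = y) →
      (s.choice (some (x, y) : Option (Fin n × Fin n)) m).1 ≠ i := by
    intro i
    by_contra hcon
    push Not at hcon
    choose X Y hXY hi hch using hcon
    -- the play in which the colour is always `i`
    let M : ℕ → Fin k := s.mem fun _ => i
    let U : ℕ → Option (Fin n × Fin n) := fun t =>
      if t % 2 = 0 then none else some (X (M t), Y (M t))
    have hU0 : ∀ t, t % 2 = 0 → U t = none := fun t ht => if_pos ht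
    have hU1 : ∀ t, ¬ t % 2 = 0 → U t = some (X (M t), Y (M t)) := fun t ht => if_neg ht
    have hedge : ∀ t a b, U t = a → U (t + 1) = b → (offer n hn).edge a i b →
        (offer n hn).edge (U t) i (U (t + 1)) := by
      rintro t _ _ rfl rfl h
      exact h
    let q : Play (offer n hn) :=
      { v := U
        c := fun _ => i
        start := rfl
        step := by
          intro t
          by_cases ht : t % 2 = 0
          · exact hedge t _ _ (hU0 t ht) (hU1 (t + 1) (by omega)) ⟨hXY _, hi _⟩
          · exact hedge t _ _ (hU1 t ht) (hU0 (t + 1) (by omega)) (hi _) }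
    have h1 := hs q (by
      intro t ht
      have hodd : ¬ t % 2 = 0 := by
        intro h0
        exact ht (hU0 t h0)
      have hv : q.v t = some (X (M t), Y (M t)) := hU1 t hodd
      have hv' : q.v (t + 1) = none := hU0 (t + 1) (by omega)
      have hleg := s.legal (q.v t) (M t) ht
      rw [hv] at hleg
      rw [hv, hv']
      refine Prod.ext ?_ ?_
      · exact (hch (M t)).symm
      · exact (offer_some hleg).1.symm)
    rw [mem_twoLetters_iff] at h1
    obtain ⟨t, -, ht⟩ := h1 0
    exact ht rfl
  choose f hf using key
  have hinj : Function.Injective f := by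
    intro i j hij
    by_contra hne
    have h1 := hf i i j hne (Or.inl rfl)
    have h2 := hf j i j hne (Or.inr rfl)
    rw [← hij] at h2
    have h3 := s.legal (some (i, j) : Option (Fin n × Fin n)) (f i) (Option.some_ne_none _)
    rcases (offer_some h3).2 with h | h
    · exact h1 h
    · exact h2 h
  simpa using Fintype.card_le_of_injective f hinj

end Pool.Agent.R573.CM
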