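import Pool.Agent.R573.CM.Basic

/-!
# One-player games with the objective `W_n`: chromatic memory two
-/

set_option autoImplicit false

namespace Pool.Agent.R573.CM

open Filter

/-- Every legal rule for choosing edges produces a play. -/
theorem exists_play {S : Type} (G : Game S) (f : List (G.V × S) → G.V → S × G.V)
    (hf : ∀ h v, G.edge v (f h v).1 (f h v).2) :
    ∃ p : Play G, ∀ n,
      (p.c n, p.v (n + 1)) = f ((List.range n).map fun i => (p.v i, p.c i)) (p.v n) := by
  let st : ℕ → List (G.V × S) × G.V := fun n =>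
    Nat.rec ([], G.init) (fun _ x => (x.1 ++ [(x.2, (f x.1 x.2).1)], (f x.1 x.2).2)) n
  have hst : ∀ n, st (n + 1) =
      ((st n).1 ++ [((st n).2, (f (st n).1 (st n).2).1)], (f (st n).1 (st n).2).2) := fun n => rfl
  let p : Play G :=
    { v := fun n => (st n).2
      c := fun n => (f (st n).1 (st n).2).1
      start := rfl
      step := fun n => hf _ _ }
  have hh : ∀ n, (st n).1 = (List.range n).map fun i => (p.v i, p.c i) := by
    intro n
    induction n with
    | zero => rfl
    | succ n ih =>
      rw [List.range_succ, List.map_append, ← ih, hst]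
      rfl
  refine ⟨p, fun n => ?_⟩
  rw [← hh n]

/-- In a one-player game with the objective `W_n`, if there is a winning play, then two memory
states suffice. -/
theorem suffices_onePlayer (n : ℕ) : Suffices OnePlayer (twoLetters n) 2 := by
  classical
  intro G hG hwin
  obtain ⟨σ, hσ⟩ := hwin
  obtain ⟨p, hp⟩ := exists_play G σ.move fun h v => σ.legal h v (hG v)
  obtain ⟨i, j, hij, hi, hj⟩ := hσ p fun n _ => hp n
  -- the target letter of a memory state
  let a : Fin 2 → Fin n := fun m => if m = 0 then i else j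
  have ha : ∀ m, ∃ᶠ t in atTop, p.c t = a m := by
    intro m
    by_cases hm : m = 0
    · simpa [a, hm] using hi
    · simpa [a, hm] using hj
  -- `P v m d`: from some visit of `v` the play has the colour `a m` after `d` steps
  let P : G.V → Fin 2 → ℕ → Prop := fun v m d => ∃ t, p.v t = v ∧ p.c (t + d) = a m
  have hP : ∀ t m, ∃ d, P (p.v t) m d := by
    intro t m
    obtain ⟨s, hs, hc⟩ := (frequently_atTop.1 (ha m)) t
    exact ⟨s - t, t, rfl, by rw [Nat.add_sub_cancel' hs]; exact hc⟩
  -- the choice
  have hchoice : ∀ v m, ∃ e : Fin n × G.V, G.edge v e.1 e.2 ∧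
      ∀ hv : ∃ d, P v m d, ∃ t, p.v t = v ∧ p.c (t + Nat.find hv) = a m ∧
        e = (p.c t, p.v (t + 1)) := by
    intro v m
    by_cases hv : ∃ d, P v m d
    · obtain ⟨t, ht, hc⟩ := Nat.find_spec hv
      exact ⟨(p.c t, p.v (t + 1)), by rw [← ht]; exact p.step t, fun _ => ⟨t, ht, hc, rfl⟩⟩
    · obtain ⟨c, w, hcw⟩ := G.total v
      exact ⟨(c, w), hcw, fun hv' => absurd hv' hv⟩
  choose ch hch1 hch2 using hchoice
  let s : Chromatic G 2 :=
    { start := 0
      upd := fun m c => if c = a m then m + 1 else m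
      choice := ch
      legal := fun v m _ => hch1 v m }
  refine ⟨s, fun q hq => ?_⟩
  have hmem : ∀ t, s.mem q.c (t + 1) =
      if q.c t = a (s.mem q.c t) then s.mem q.c t + 1 else s.mem q.c t := fun t => rfl
  have hq' : ∀ t, (q.c t, q.v (t + 1)) = ch (q.v t) (s.mem q.c t) := fun t => hq t (hG _)
  -- all the vertices are visited by the play `p`
  have hvis : ∀ t, ∃ u, p.v u = q.v t := by
    intro t
    induction t with
    | zero => exact ⟨0, by rw [p.start, q.start]⟩
    | succ t ih =>
      obtain ⟨u, hu⟩ := ih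
      have hex : ∃ d, P (q.v t) (s.mem q.c t) d := by rw [← hu]; exact hP u _
      obtain ⟨t', -, -, he⟩ := hch2 _ _ hex
      refine ⟨t' + 1, ?_⟩
      have := congrArg Prod.snd ((hq' t).trans he)
      exact this.symm
  have hex : ∀ t m, ∃ d, P (q.v t) m d := by
    intro t m
    obtain ⟨u, hu⟩ := hvis t
    rw [← hu]
    exact hP u m
  -- the target letter is reached
  have hreach : ∀ d t, Nat.find (hex t (s.mem q.c t)) ≤ d →
      ∃ t', t ≤ t' ∧ s.mem q.c t' = s.mem q.c t ∧ q.c t' = a (s.mem q.c t) := by
    intro d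
    induction d with
    | zero =>
      intro t ht
      obtain ⟨t', ht'v, ht'c, he⟩ := hch2 _ _ (hex t (s.mem q.c t))
      have h0 : Nat.find (hex t (s.mem q.c t)) = 0 := by omega
      rw [h0, Nat.add_zero] at ht'c
      refine ⟨t, le_rfl, rfl, ?_⟩
      have := congrArg Prod.fst ((hq' t).trans he)
      rw [← ht'c]
      exact this
    | succ d ih =>
      intro t ht
      by_cases hc : q.c t = a (s.mem q.c t)
      · exact ⟨t, le_rfl, rfl, hc⟩
      obtain ⟨t', ht'v, ht'c, he⟩ := hch2 _ _ (hex t (s.mem q.c t))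
      have hm : s.mem q.c (t + 1) = s.mem q.c t := by rw [hmem, if_neg hc]
      have hcol : q.c t = p.c t' := congrArg Prod.fst ((hq' t).trans he)
      have hver : q.v (t + 1) = p.v (t' + 1) := congrArg Prod.snd ((hq' t).trans he)
      have hpos : Nat.find (hex t (s.mem q.c t)) ≠ 0 := by
        intro h0
        rw [h0, Nat.add_zero, ← hcol] at ht'c
        exact hc ht'c
      have hle : Nat.find (hex (t + 1) (s.mem q.c (t + 1))) ≤ d := by
        refine (Nat.find_min' (m := Nat.find (hex t (s.mem q.c t)) - 1) _ ?_).trans (by omega)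
        refine ⟨t' + 1, hver.symm, ?_⟩
        rw [hm, ← ht'c]
        congr 1
        omega
      obtain ⟨t'', h1, h2, h3⟩ := ih (t + 1) hle
      exact ⟨t'', by omega, by rw [h2, hm], by rw [h3, hm]⟩
  have hreach' : ∀ t, ∃ t', t ≤ t' ∧ s.mem q.c t' = s.mem q.c t ∧ q.c t' = a (s.mem q.c t) :=
    fun t => hreach _ t le_rfl
  have hboth : ∀ m : Fin 2, ∃ᶠ t in atTop, q.c t = a m := by
    intro m
    rw [frequently_atTop]
    intro N
    obtain ⟨t1, h1, h2, h3⟩ := hreach' N
    by_cases hm : s.mem q.c N = m
    · exact ⟨t1, h1, by rw [h3, hm]⟩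
    · obtain ⟨t2, h4, h5, h6⟩ := hreach' (t1 + 1)
      have h7 : s.mem q.c (t1 + 1) = m := by
        rw [hmem, h2, if_pos h3]
        revert hm
        generalize s.mem q.c N = x
        revert x m
        decide
      exact ⟨t2, by omega, by rw [h6, h7]⟩
  exact ⟨i, j, hij, by simpa [a] using hboth 0, by simpa [a] using hboth 1⟩

/-- The game with a single vertex, owned by Eve, with all the loops. -/
def loops (n : ℕ) (hn : 2 ≤ n) : Game (Fin n) where
  V := Unit
  edge := fun _ _ _ => True
  total := fun _ => ⟨⟨0, by omega⟩, (), trivial⟩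
  eve := fun _ => True
  init := ()

theorem onePlayer_lower (n : ℕ) (hn : 2 ≤ n) (k : ℕ) (h : Suffices OnePlayer (twoLetters n) k) :
    2 ≤ k := by
  obtain ⟨s, hs⟩ := h (loops n hn) (fun _ => trivial) (by
    refine ⟨⟨fun h _ => (if h.length % 2 = 0 then ⟨0, by omega⟩ else ⟨1, by omega⟩, ()),
      fun _ _ _ => trivial⟩, fun p hp => ?_⟩
    have hc : ∀ t, p.c t = if t % 2 = 0 then ⟨0, by omega⟩ else ⟨1, by omega⟩ := by
      intro t
      have h1 := congrArg Prod.fst (hp t trivial)
      simp only [List.length_map, List.length_range] at h1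
      exact h1
    rw [mem_twoLetters_iff]
    intro N
    refine ⟨N, le_rfl, ?_⟩
    rw [hc, hc]
    by_cases hN : N % 2 = 0
    · rw [if_pos hN, if_neg (by omega)]
      simp
    · rw [if_neg hN, if_pos (by omega)]
      simp)
  by_contra hk
  have hk1 : Subsingleton (Fin k) := by
    refine ⟨fun x y => ?_⟩
    apply Fin.ext
    have := x.2
    have := y.2
    omega
  let q : Play (loops n hn) :=
    { v := fun _ => ()
      c := fun _ => (s.choice () s.start).1
      start := rfl
      step := fun _ => trivial }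
  have h1 := hs q (by
    intro t _
    have : s.mem q.c t = s.start := Subsingleton.elim _ _
    rw [this]
    rfl)
  rw [mem_twoLetters_iff] at h1
  obtain ⟨t, -, ht⟩ := h1 0
  exact ht rfl

theorem isChromaticMemory_onePlayer (n : ℕ) (hn : 2 ≤ n) :
    IsChromaticMemory OnePlayer (twoLetters n) 2 :=
  ⟨suffices_onePlayer n, fun k hk => onePlayer_lower n hn k hk⟩

end Pool.Agent.R573.CM
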