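import Pool.Agent.R573.CM.One

/-!
# Arbitrary games with the objective `W_n`: `n` memory states suffice

Eve remembers the last letter `m` and plays, inside her winning region, so as to force a letter
different from `m`.
-/

set_option autoImplicit false

namespace Pool.Agent.R573.CM

open Filter

/-- A rank function for the least fixed point of a monotone operator on sets. -/
theorem exists_rank {V : Type} (F : Set V →o Set V) :
    ∃ r : V → Ordinal.{0}, ∀ v ∈ F.lfp, v ∈ F {u | u ∈ F.lfp ∧ r u < r v} := by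
  classical
  obtain ⟨κ, hκ⟩ := OrdinalApprox.lfp_mem_range_lfpApprox F
  have hle : ∀ a, OrdinalApprox.lfpApprox F ⊥ a ≤ F.lfp := fun a =>
    OrdinalApprox.lfpApprox_le_of_mem_fixedPoints F F.map_lfp bot_le a
  refine ⟨fun v => sInf {a | v ∈ F (OrdinalApprox.lfpApprox F ⊥ a)}, fun v hv => ?_⟩
  have hne : {a | v ∈ F (OrdinalApprox.lfpApprox F ⊥ a)}.Nonempty := by
    refine ⟨κ, ?_⟩
    show v ∈ F (OrdinalApprox.lfpApprox F ⊥ κ)
    rw [hκ, F.map_lfp]
    exact hv
  have hmem := csInf_mem hne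
  refine F.monotone ?_ hmem
  intro u hu
  refine ⟨hle _ hu, ?_⟩
  rw [OrdinalApprox.lfpApprox] at hu
  rcases hu with hu | hu
  · exact hu.elim
  · simp only [Set.iSup_eq_iUnion, Set.mem_iUnion] at hu
    obtain ⟨b, hb, hu⟩ := hu
    have h1 : sInf {a | u ∈ F (OrdinalApprox.lfpApprox F ⊥ a)} ≤ b := csInf_le' hu
    exact h1.trans_lt hb

variable {S : Type}

/-- The strategy wins from the vertex `v`. -/
def WinsFrom (G : Game S) (W : Set (ℕ → S)) (σ : Strategy G) (v : G.V) : Prop :=
  ∀ (x : ℕ → G.V) (c : ℕ → S), x 0 = v → (∀ t, G.edge (x t) (c t) (x (t + 1))) →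
    (∀ t, G.eve (x t) →
      (c t, x (t + 1)) = σ.move ((List.range t).map fun i => (x i, c i)) (x t)) → c ∈ W

/-- Eve can win from the vertex. -/
def Win (G : Game S) (W : Set (ℕ → S)) (v : G.V) : Prop := ∃ σ : Strategy G, WinsFrom G W σ v

/-- The residual strategy after one move. -/
def Strategy.shift {G : Game S} (σ : Strategy G) (e : G.V × S) : Strategy G where
  move h v := σ.move (e :: h) v
  legal _ v hv := σ.legal _ v hv

theorem WinsFrom.shift {G : Game S} {W : Set (ℕ → S)}
    (hW : ∀ w : ℕ → S, w ∈ W → (fun t => w (t + 1)) ∈ W) {σ : Strategy G} {v : G.V}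
    (h : WinsFrom G W σ v) {c : S} {v' : G.V} (he : G.edge v c v')
    (hs : G.eve v → (c, v') = σ.move [] v) : WinsFrom G W (σ.shift (v, c)) v' := by
  intro x d hx0 hx hf
  have h1 := h (fun t => Nat.casesOn t v x) (fun t => Nat.casesOn t c d) rfl (by
    rintro (- | t)
    · show G.edge v c (x 0)
      rw [hx0]
      exact he
    · exact hx t) (by
    rintro (- | t) ht
    · show (c, x 0) = σ.move [] v
      rw [hx0]
      exact hs ht
    · rw [List.range_succ_eq_map, List.map_cons, List.map_map]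
      exact hf t ht)
  exact hW _ h1

theorem Win.eve {G : Game S} {W : Set (ℕ → S)}
    (hW : ∀ w : ℕ → S, w ∈ W → (fun t => w (t + 1)) ∈ W) {v : G.V} (h : Win G W v)
    (hv : G.eve v) : ∃ c v', G.edge v c v' ∧ Win G W v' := by
  obtain ⟨σ, hσ⟩ := h
  exact ⟨_, _, σ.legal [] v hv, _, hσ.shift hW (σ.legal [] v hv) fun _ => rfl⟩

theorem Win.adam {G : Game S} {W : Set (ℕ → S)}
    (hW : ∀ w : ℕ → S, w ∈ W → (fun t => w (t + 1)) ∈ W) {v : G.V} (h : Win G W v)
    (hv : ¬ G.eve v) {c : S} {v' : G.V} (he : G.edge v c v') : Win G W v' := by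
  obtain ⟨σ, hσ⟩ := h
  exact ⟨_, hσ.shift hW he fun h => absurd h hv⟩

/-- One step of the attractor: Eve can play a letter different from `m` or go to `X`, staying in her
winning region. -/
def good (G : Game S) (W : Set (ℕ → S)) (m : S) : Set G.V →o Set G.V where
  toFun X := {v | (G.eve v → ∃ c v', G.edge v c v' ∧ Win G W v' ∧ (c ≠ m ∨ v' ∈ X)) ∧
    (¬ G.eve v → ∀ c v', G.edge v c v' → (c ≠ m ∨ v' ∈ X))}
  monotone' := by
    rintro X Y hXY v ⟨h1, h2⟩
    refine ⟨fun hv => ?_, fun hv c v' he => (h2 hv c v' he).imp_right fun h => hXY h⟩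
    obtain ⟨c, v', he, hw, h⟩ := h1 hv
    exact ⟨c, v', he, hw, h.imp_right fun h => hXY h⟩

/-- The winning region lies in the attractor, if the word `m^ω` is losing. -/
theorem win_mem_lfp {G : Game S} {W : Set (ℕ → S)}
    (hW : ∀ w : ℕ → S, w ∈ W → (fun t => w (t + 1)) ∈ W) (m : S)
    (hm : (fun _ => m) ∉ W) {v : G.V} (hv : Win G W v) : v ∈ (good G W m).lfp := by
  classical
  by_contra hv'
  obtain ⟨σ, hσ⟩ := hv
  set R := (good G W m).lfp with hR
  have hfix : good G W m R = R := (good G W m).map_lfp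
  -- the positions of the play outside of the attractor
  let T := {x : Strategy G × G.V // WinsFrom G W x.1 x.2 ∧ x.2 ∉ R}
  have hnext : ∀ x : T, ∃ y : T, y.1.1 = x.1.1.shift (x.1.2, m) ∧ G.edge x.1.2 m y.1.2 ∧
      (G.eve x.1.2 → (m, y.1.2) = x.1.1.move [] x.1.2) := by
    rintro ⟨⟨τ, u⟩, hτ, hu⟩
    dsimp only at hτ hu ⊢
    have hu' := hu
    rw [← hfix] at hu'
    by_cases hev : G.eve u
    · have hno : ¬ ∃ c v', G.edge u c v' ∧ Win G W v' ∧ (c ≠ m ∨ v' ∈ R) := by
        intro h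
        exact hu' ⟨fun _ => h, fun h => absurd hev h⟩
      have hleg := τ.legal [] u hev
      have hsh := hτ.shift hW hleg fun _ => rfl
      have h1 : ¬ ((τ.move [] u).1 ≠ m ∨ (τ.move [] u).2 ∈ R) := fun h =>
        hno ⟨_, _, hleg, ⟨_, hsh⟩, h⟩
      push Not at h1
      obtain ⟨h2, h3⟩ := h1
      rw [h2] at hleg hsh
      refine ⟨⟨(τ.shift (u, m), (τ.move [] u).2), hsh, h3⟩, rfl, hleg, fun _ => ?_⟩
      exact Prod.ext h2.symm rfl
    · have hno : ¬ ∀ c v', G.edge u c v' → (c ≠ m ∨ v' ∈ R) := by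
        intro h
        exact hu' ⟨fun h => absurd h hev, fun _ => h⟩
      push Not at hno
      obtain ⟨c, v', he, rfl, hv'R⟩ := hno
      exact ⟨⟨(τ.shift (u, c), v'), hτ.shift hW he (fun h => absurd h hev), hv'R⟩, rfl, he,
        fun h => absurd h hev⟩
  choose nx hnx1 hnx2 hnx3 using hnext
  let st : ℕ → T := fun t => nx^[t] ⟨(σ, v), hσ, hv'⟩
  have hst : ∀ t, st (t + 1) = nx (st t) := fun t => Function.iterate_succ_apply' _ _ _
  have hmv : ∀ t h u, (st t).1.1.move h u =
      σ.move (((List.range t).map fun i => ((st i).1.2, m)) ++ h) u := by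
    intro t
    induction t with
    | zero => intro h u; rfl
    | succ t ih =>
      intro h u
      rw [hst, hnx1]
      show (st t).1.1.move (((st t).1.2, m) :: h) u = _
      rw [ih, List.range_succ, List.map_append, List.append_assoc]
      rfl
  refine hm (hσ (fun t => (st t).1.2) (fun _ => m) rfl (fun t => ?_) fun t ht => ?_)
  · show G.edge (st t).1.2 m (st (t + 1)).1.2
    rw [hst]
    exact hnx2 _
  · show (m, (st (t + 1)).1.2) = _
    have h1 := hnx3 (st t) ht
    rw [hmv, List.append_nil] at h1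
    rw [hst]
    exact h1

theorem twoLetters_tail {n : ℕ} (w : ℕ → Fin n) (h : w ∈ twoLetters n) :
    (fun t => w (t + 1)) ∈ twoLetters n := by
  rw [mem_twoLetters_iff] at h ⊢
  intro N
  obtain ⟨t, ht, hne⟩ := h (N + 1)
  obtain ⟨s, rfl⟩ : ∃ s, t = s + 1 := ⟨t - 1, by omega⟩
  exact ⟨s, by omega, hne⟩

theorem const_not_mem {n : ℕ} (m : Fin n) : (fun _ => m) ∉ twoLetters n := by
  rw [mem_twoLetters_iff]
  intro h
  obtain ⟨t, -, ht⟩ := h 0
  exact ht rfl

theorem suffices_all (n : ℕ) (hn : 1 ≤ n) : Suffices (fun _ => True) (twoLetters n) n := by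
  classical
  rintro G - ⟨σ, hσ⟩
  have hW := @twoLetters_tail n
  have hinit : Win G (twoLetters n) G.init :=
    ⟨σ, fun x c hx0 hx hf => hσ ⟨x, c, hx0, hx⟩ hf⟩
  have hrank := fun m : Fin n => exists_rank (good G (twoLetters n) m)
  choose r hr using hrank
  -- the choice of Eve
  have hchoice : ∀ (v : G.V) (m : Fin n), ∃ e : Fin n × G.V, G.edge v e.1 e.2 ∧
      (G.eve v → Win G (twoLetters n) v → Win G (twoLetters n) e.2 ∧
        (e.1 ≠ m ∨ r m e.2 < r m v)) := by
    intro v m
    by_cases hv : G.eve v ∧ Win G (twoLetters n) v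
    · obtain ⟨c, v', he, hw, h⟩ :=
        (hr m v (win_mem_lfp hW m (const_not_mem m) hv.2)).1 hv.1
      exact ⟨(c, v'), he, fun _ _ => ⟨hw, h.imp_right fun h => h.2⟩⟩
    · obtain ⟨c, w, hcw⟩ := G.total v
      exact ⟨(c, w), hcw, fun h1 h2 => absurd ⟨h1, h2⟩ hv⟩
  choose ch hch1 hch2 using hchoice
  let s : Chromatic G n :=
    { start := ⟨0, by omega⟩
      upd := fun _ c => c
      choice := ch
      legal := fun v m _ => hch1 v m }
  refine ⟨s, fun q hq => ?_⟩
  have hmem : ∀ t, s.mem q.c (t + 1) = q.c t := fun t => rfl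
  have hwin : ∀ t, Win G (twoLetters n) (q.v t) := by
    intro t
    induction t with
    | zero => rw [q.start]; exact hinit
    | succ t ih =>
      by_cases hv : G.eve (q.v t)
      · have h1 := (hch2 (q.v t) (s.mem q.c t) hv ih).1
        have h2 := congrArg Prod.snd (hq t hv)
        have h3 : q.v (t + 1) = (ch (q.v t) (s.mem q.c t)).2 := h2
        rw [h3]
        exact h1
      · exact ih.adam hW hv (q.step t)
  have hstep : ∀ t, q.c t ≠ s.mem q.c t ∨
      r (s.mem q.c t) (q.v (t + 1)) < r (s.mem q.c t) (q.v t) := by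
    intro t
    by_cases hv : G.eve (q.v t)
    · have h1 := (hch2 (q.v t) (s.mem q.c t) hv (hwin t)).2
      have h2 := congrArg Prod.snd (hq t hv)
      have h3 : q.v (t + 1) = (ch (q.v t) (s.mem q.c t)).2 := h2
      have h2 := congrArg Prod.fst (hq t hv)
      have h4 : q.c t = (ch (q.v t) (s.mem q.c t)).1 := h2
      rw [h3, h4]
      exact h1
    · exact ((hr _ _ (win_mem_lfp hW (s.mem q.c t) (const_not_mem _) (hwin t))).2 hv _ _
        (q.step t)).imp_right fun h => h.2
  have hchange : ∀ (a : Ordinal.{0}) (t : ℕ), r (s.mem q.c t) (q.v t) = a →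
      ∃ t', t ≤ t' ∧ q.c t' ≠ s.mem q.c t' := by
    intro a
    induction a using WellFoundedLT.induction with
    | ind a ih =>
      intro t ht
      by_cases hc : q.c t = s.mem q.c t
      · have h1 := (hstep t).resolve_left (not_not_intro hc)
        have h2 : r (s.mem q.c (t + 1)) (q.v (t + 1)) < a := by
          rw [hmem, hc, ← ht]
          exact h1
        obtain ⟨t', h3, h4⟩ := ih _ h2 (t + 1) rfl
        exact ⟨t', by omega, h4⟩
      · exact ⟨t, le_rfl, hc⟩
  rw [mem_twoLetters_iff]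
  intro N
  obtain ⟨t, ht, hne⟩ := hchange _ (N + 1) rfl
  obtain ⟨u, rfl⟩ : ∃ u, t = u + 1 := ⟨t - 1, by omega⟩
  exact ⟨u, by omega, hne⟩

end Pool.Agent.R573.CM
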